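import Pool.Agent.R304.UN.BadC
import Pool.Agent.TH803.UC.Sets

/-! Few zeros have their ordinate in the exceptional set. -/

open Complex Filter Topology Set MeasureTheory

namespace Pool.Agent.R304.UN

open ZU H370 H370.A2 H370.AS H295SI TH803TW TH803UC

/-- if `u` is exceptional then so are all `t` with `|t - u| ≤ 1` for the larger rectangle -/
lemma bad_near {M : ℕ} {a b B θ : ℝ} {u t : ℝ} (hu : u ∈ bad M a b B θ) (h : |t - u| ≤ 1) :
    t ∈ bad M a b (B + 1) θ := by
  obtain ⟨z, ⟨h1, h2, h3⟩, hz⟩ := hu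
  refine ⟨z + ((u - t : ℝ) : ℂ) * I, ⟨?_, ?_, ?_⟩, ?_⟩
  · simpa using h1
  · simpa using h2
  · simp only [Complex.add_im, Complex.mul_im, Complex.ofReal_re, Complex.I_im, mul_one,
      Complex.ofReal_im, Complex.I_re, mul_zero, add_zero]
    rw [abs_sub_comm] at h
    exact (abs_add_le _ _).trans (by linarith)
  · have e : z + ((u - t : ℝ) : ℂ) * I + (t : ℂ) * I = z + (u : ℂ) * I := by
      push_cast; ring
    rw [e]
    exact hz

open Classical in
theorem bad_zeros (a b B θ η : ℝ) (h1 : 1 / 2 < a) (h2 : a ≤ b) (h3 : b < 1) (hB : 0 < B)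
    (hθ : 0 < θ) (hη : 0 < η) : ∃ M0 : ℕ, ∀ M ≥ M0, ∃ T0 : ℝ, 10 ≤ T0 ∧ ∀ T ≥ T0,
      NU riemannZeta T (2 * T) (fun t => t ∈ bad M a b B θ) ≤
        η * (NN riemannZeta T (2 * T) : ℝ) := by
  obtain ⟨C, hC, hloc⟩ := zcount good_zeta
  obtain ⟨T1, hT1, hlow⟩ := NN_low good_zeta
  obtain ⟨M0, hM0⟩ := bad_measure a b (B + 1) θ (η / (42 * C)) h1 h2 h3 (by linarith) hθ
    (by positivity)
  refine ⟨M0, fun M hM => ?_⟩
  obtain ⟨T2, hT2, hms⟩ := hM0 M hM
  refine ⟨max 10 (max T1 T2), le_max_left _ _, fun T hT => ?_⟩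
  have hT10 : 10 ≤ T := (le_max_left _ _).trans hT
  have hTT1 : T1 ≤ T := ((le_max_left _ _).trans (le_max_right _ _)).trans hT
  have hTT2 : T2 ≤ T := ((le_max_right _ _).trans (le_max_right _ _)).trans hT
  have hlowT := hlow T hTT1
  have hms3 := hms (3 * T) (by linarith)
  set F := (Zf riemannZeta T (2 * T)).filter (fun s => s.im ∈ bad M a b B θ) with hF
  set Fl : ℂ → ℕ := fun s => ⌊s.im⌋₊ with hFl
  set J := F.image Fl with hJ
  have hFim : ∀ s ∈ F, T < s.im ∧ s.im ≤ 2 * T ∧ s.im ∈ bad M a b B θ := by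
    intro s hs
    rw [hF, Finset.mem_filter, mem_Zf good_zeta (by linarith)] at hs
    exact ⟨hs.1.2.2.1, hs.1.2.2.2.1, hs.2⟩
  -- the number of the unit intervals
  have hcard : (J.card : ℝ) ≤ η / (42 * C) * (3 * T) := by
    have hsub : (⋃ n ∈ J, Ico (n : ℝ) ((n : ℝ) + 1)) ⊆ bad M a b (B + 1) θ ∩ Icc 0 (3 * T) := by
      intro t ht
      simp only [mem_iUnion] at ht
      obtain ⟨n, hn, ht1, ht2⟩ := ht
      rw [hJ, Finset.mem_image] at hn
      obtain ⟨s, hs, rfl⟩ := hn
      obtain ⟨b1, b2, b3⟩ := hFim s hs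
      have hs0 : 0 ≤ s.im := by linarith
      have c1 := Nat.floor_le hs0
      have c2 := Nat.lt_floor_add_one s.im
      simp only [hFl] at ht1 ht2
      refine ⟨bad_near b3 ?_, ?_, ?_⟩
      · rw [abs_le]; constructor <;> linarith
      · have : (0 : ℝ) ≤ (⌊s.im⌋₊ : ℝ) := Nat.cast_nonneg _
        linarith
      · linarith
    have hvol : volume (⋃ n ∈ J, Ico (n : ℝ) ((n : ℝ) + 1)) = ENNReal.ofReal (J.card : ℝ) := by
      rw [measure_biUnion_finset]
      · simp
      · intro m _ n _ hmn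
        simp only [Function.onFun]
        rw [Set.disjoint_left]
        intro t ht1 ht2
        apply hmn
        have e1 : (m : ℝ) < n + 1 := lt_of_le_of_lt ht1.1 ht2.2
        have e2 : (n : ℝ) < m + 1 := lt_of_le_of_lt ht2.1 ht1.2
        have e3 : m < n + 1 := by exact_mod_cast e1
        have e4 : n < m + 1 := by exact_mod_cast e2
        omega
      · intro n _
        exact measurableSet_Ico
    have h6 := (measure_mono hsub).trans hms3
    rw [hvol] at h6
    exact (ENNReal.ofReal_le_ofReal_iff (by positivity)).mp h6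
  -- each contains few zeros
  have hlogT : 0 < Real.log T := Real.log_pos (by linarith)
  have hper : ∀ n ∈ J, ∑ s ∈ F.filter (fun s => Fl s = n), (mult riemannZeta s : ℝ) ≤
      C * (2 * Real.log T) := by
    intro n hn
    rw [hJ, Finset.mem_image] at hn
    obtain ⟨s0, hs0, hn0⟩ := hn
    obtain ⟨b1, b2, b3⟩ := hFim s0 hs0
    have hs00 : 0 ≤ s0.im := by linarith
    have c1 := Nat.floor_le hs00
    have c2 := Nat.lt_floor_add_one s0.im
    have hn1 : (n : ℝ) ≤ 2 * T := by rw [← hn0]; linarith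
    have hn2 : T - 1 ≤ (n : ℝ) := by rw [← hn0]; linarith
    have hA : (1 : ℝ) ≤ (n : ℝ) + 1 / 2 - 1 := by linarith
    have h6 := hloc ((n : ℝ) + 1 / 2) (by linarith)
    have h7 : ∑ s ∈ F.filter (fun s => Fl s = n), (mult riemannZeta s : ℝ) ≤
        (NN riemannZeta ((n : ℝ) + 1 / 2 - 1) ((n : ℝ) + 1 / 2 + 1) : ℝ) := by
      rw [H370.NN_eq good_zeta hA]
      push_cast
      refine Finset.sum_le_sum_of_subset_of_nonneg ?_ fun s _ _ => Nat.cast_nonneg _
      intro s hs
      rw [Finset.mem_filter] at hs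
      have hsF := hs.1
      rw [hF, Finset.mem_filter, mem_Zf good_zeta (by linarith)] at hsF
      obtain ⟨⟨d1, d2, d3, d4, d5⟩, -⟩ := hsF
      rw [mem_Zf good_zeta hA]
      have hs0 : 0 ≤ s.im := by linarith
      have c3 := Nat.floor_le hs0
      have c4 := Nat.lt_floor_add_one s.im
      have e : (⌊s.im⌋₊ : ℝ) = n := by exact_mod_cast hs.2
      rw [e] at c3 c4
      exact ⟨d1, d2, by linarith, by linarith, d5⟩
    refine h7.trans (h6.trans ?_)
    have h8 : Real.log ((n : ℝ) + 1 / 2) ≤ 2 * Real.log T := by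
      rw [← Real.log_rpow (by linarith), show T ^ (2 : ℝ) = T ^ 2 by norm_cast]
      apply Real.log_le_log (by linarith)
      nlinarith
    gcongr
  -- conclusion
  have hsum : NU riemannZeta T (2 * T) (fun t => t ∈ bad M a b B θ) =
      ∑ n ∈ J, ∑ s ∈ F.filter (fun s => Fl s = n), (mult riemannZeta s : ℝ) := by
    unfold NU
    exact (Finset.sum_fiberwise_of_maps_to (fun s hs => Finset.mem_image_of_mem Fl hs) _).symm
  rw [hsum]
  calc ∑ n ∈ J, ∑ s ∈ F.filter (fun s => Fl s = n), (mult riemannZeta s : ℝ)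
      ≤ ∑ n ∈ J, C * (2 * Real.log T) := Finset.sum_le_sum hper
    _ = J.card * (C * (2 * Real.log T)) := by rw [Finset.sum_const, nsmul_eq_mul]
    _ ≤ η / (42 * C) * (3 * T) * (C * (2 * Real.log T)) := by gcongr
    _ = η / 7 * (T * Real.log T) := by field_simp; ring
    _ ≤ η / 7 * (7 * (NN riemannZeta T (2 * T) : ℝ)) := by gcongr
    _ = _ := by ring

end Pool.Agent.R304.UN
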