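import Pool.Agent.Helper240.ZU.E1

/-! The set of the shifts for which zeta is not close to a partial Euler product. -/

open Complex Filter Topology Set MeasureTheory

namespace Pool.Agent.R304.UN

open ZU

/-- `ζ(z) ∏_{p ≤ M} (1 - p^{-z}) - 1` -/
noncomputable def GM (M : ℕ) (z : ℂ) : ℂ := riemannZeta z * EM M (fun _ => 1) z - 1

/-- the exceptional set -/
def bad (M : ℕ) (a b B θ : ℝ) : Set ℝ := {t : ℝ | ∃ z ∈ rect a b B, θ < ‖GM M (z + t * I)‖}

lemma GM_diff (M : ℕ) {z : ℂ} (hz : z.re < 1) : DifferentiableAt ℂ (GM M) z := by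
  have hz1 : z ≠ 1 := by
    intro h
    rw [h, Complex.one_re] at hz
    exact lt_irrefl _ hz
  exact ((differentiableAt_riemannZeta hz1).mul (ZU.J_e1.de_EM_diff M _ z)).sub_const 1

lemma Dir_one (t : ℝ) : ‖Dir {1} (fun _ => 1) t‖ ^ 2 = 1 := by
  unfold Dir
  simp

theorem bad_measure (a b B θ η : ℝ) (h1 : 1 / 2 < a) (h2 : a ≤ b) (h3 : b < 1) (hB : 0 < B)
    (hθ : 0 < θ) (hη : 0 < η) : ∃ M0 : ℕ, ∀ M ≥ M0, ∃ T0 : ℝ, 0 < T0 ∧ ∀ T ≥ T0,
      volume (bad M a b B θ ∩ Icc 0 T) ≤ ENNReal.ofReal (η * T) := by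
  obtain ⟨a', ha'⟩ : ∃ a', a' = (1 / 2 + a) / 2 := ⟨_, rfl⟩
  obtain ⟨b', hb'⟩ : ∃ b', b' = (b + 1) / 2 := ⟨_, rfl⟩
  obtain ⟨B', hB'⟩ : ∃ B', B' = B + 1 := ⟨_, rfl⟩
  have k0 : 1 / 2 < a' := by linarith
  have k1 : a' < a := by linarith
  have k2 : b < b' := by linarith
  have k3 : b' < 1 := by linarith
  have k4 : B < B' := by linarith
  have k5 : 0 < B' := by linarith
  obtain ⟨C, hC, hCs⟩ := sup_le_area a b a' b' B B' k1 h2 k2 hB k4
  set κ : ℝ := C / θ ^ 2 * ((b' - a') * (2 * B')) with hκ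
  have hba : 0 < b' - a' := by linarith
  have hκ0 : 0 < κ := by positivity
  obtain ⟨M0, hM0⟩ : ∃ M0 : ℕ, ∀ M ≥ M0, tail a' M < η / (8 * κ) := by
    have := (tail_tendsto a' k0).1
    have h6 := this.eventually (gt_mem_nhds (show (0:ℝ) < η / (8 * κ) by positivity))
    exact Filter.eventually_atTop.mp h6
  refine ⟨M0, fun M hM => ?_⟩
  have htail := hM0 M hM
  obtain ⟨T3, hT3, hT3'⟩ := rough_mv a' b' k0 (by linarith) k3 B' k5 M {1}
    (by
      intro n hn
      rw [Finset.mem_singleton] at hn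
      subst hn
      exact ⟨le_rfl, fun p hp hp1 => absurd (Nat.dvd_one.mp hp1) hp.one_lt.ne'⟩)
    (fun _ => 1) (fun _ _ => by simp) (η / (2 * κ)) (by positivity)
  refine ⟨T3, hT3, fun T hT => ?_⟩
  have hT0 : 0 < T := hT3.trans_le hT
  have hGcont : ContinuousOn (GM M) {z : ℂ | a' ≤ z.re ∧ z.re ≤ b'} := by
    intro z hz
    exact (GM_diff M (lt_of_le_of_lt hz.2 k3)).continuousAt.continuousWithinAt
  have hfub := fubini_bound a' b' B' (by linarith) k5 (GM M) hGcont (fun _ => 1)
    continuous_const T hT0.le (T * (4 * tail a' M + η / (2 * κ))) (by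
      intro s hs
      have := hT3' T hT s hs
      simp only [Finset.card_singleton, Nat.cast_one, one_mul] at this
      refine le_trans (le_of_eq ?_) this
      refine intervalIntegral.integral_congr fun t _ => ?_
      simp only [Dir_one, one_mul]
      rfl)
  set A : ℝ → ℝ := fun t => ∫ w in rect a' b' B', ‖GM M (w + t * I)‖ ^ 2 with hA
  have hA0 : ∀ t, 0 ≤ A t := fun t => integral_nonneg fun z => by positivity
  have hAc : Continuous A := hfub.1
  have hint : ∫ t in (0 : ℝ)..T, A t ≤ (b' - a') * (2 * B') * (T * (4 * tail a' M + η / (2 * κ))) := by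
    refine le_trans (le_of_eq ?_) hfub.2
    refine intervalIntegral.integral_congr fun t _ => ?_
    simp only [one_mul]
    rfl
  set G2 : ℝ → ℝ := fun t => C / θ ^ 2 * A t with hG2
  have hG2c : Continuous G2 := continuous_const.mul hAc
  have hG20 : ∀ t, 0 ≤ G2 t := fun t => mul_nonneg (by positivity) (hA0 t)
  have hsub : bad M a b B θ ∩ Icc 0 T ⊆ {t | 1 ≤ G2 t} ∩ Icc 0 T := by
    rintro t ⟨⟨z, hz, hzt⟩, ht⟩
    refine ⟨?_, ht⟩
    have hre : ∀ z : ℂ, (z + t * I).re = z.re := by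
      intro z
      simp
    have h6 := hCs (fun z => GM M (z + t * I)) {z : ℂ | z.re < 1}
      (isOpen_lt Complex.continuous_re continuous_const)
      (fun z hz => lt_of_le_of_lt hz.2.1 k3)
      (fun z hz => by
        have hz' : (z + t * I).re < 1 := by
          rw [hre]; exact hz
        have h7 : DifferentiableAt ℂ (fun z : ℂ => GM M (z + t * I)) z :=
          DifferentiableAt.comp z (GM_diff M hz') (differentiableAt_id.add_const _)
        exact h7.differentiableWithinAt) z hz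
    have h7 : θ ^ 2 < ‖GM M (z + t * I)‖ ^ 2 := by gcongr
    have h8 : θ ^ 2 ≤ C * A t := h7.le.trans h6
    show 1 ≤ C / θ ^ 2 * A t
    rw [div_mul_eq_mul_div, le_div_iff₀ (by positivity)]
    linarith
  have hmeas : MeasurableSet {t | 1 ≤ G2 t} := (isClosed_le continuous_const hG2c).measurableSet
  have hIi : IntegrableOn G2 (Icc 0 T) := hG2c.continuousOn.integrableOn_compact isCompact_Icc
  have hmk := mul_meas_ge_le_integral_of_nonneg (μ := volume.restrict (Icc 0 T))
    (Eventually.of_forall hG20) hIi 1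
  have hval : ∫ t in Icc 0 T, G2 t ≤ η * T := by
    rw [integral_Icc_eq_integral_Ioc, ← intervalIntegral.integral_of_le hT0.le, hG2,
      intervalIntegral.integral_const_mul]
    have h9 := mul_le_mul_of_nonneg_left hint (show 0 ≤ C / θ ^ 2 by positivity)
    refine h9.trans ?_
    have h10 : C / θ ^ 2 * ((b' - a') * (2 * B') * (T * (4 * tail a' M + η / (2 * κ)))) =
        T * (4 * (κ * tail a' M) + κ * (η / (2 * κ))) := by rw [hκ]; ring
    rw [h10]
    have h11 : κ * (η / (2 * κ)) = η / 2 := by field_simp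
    have h12 : κ * tail a' M ≤ η / 8 := by
      have h13 := mul_le_mul_of_nonneg_left htail.le hκ0.le
      have h14 : κ * (η / (8 * κ)) = η / 8 := by field_simp
      linarith
    rw [h11]
    nlinarith
  refine (measure_mono hsub).trans ?_
  rw [← Measure.restrict_apply hmeas]
  have hfin : (volume.restrict (Icc 0 T)) {t | 1 ≤ G2 t} ≠ ⊤ := by
    refine ne_top_of_le_ne_top ?_ (measure_mono (subset_univ _))
    rw [Measure.restrict_apply_univ]
    exact measure_Icc_lt_top.ne
  rw [← ENNReal.ofReal_toReal hfin]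
  apply ENNReal.ofReal_le_ofReal
  rw [one_mul] at hmk
  exact hmk.trans hval

end Pool.Agent.R304.UN
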