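import Pool.Agent.R304.UN.BadC
import Pool.Agent.TH803.TW.AP

/-! The phases of the primes as a point of the torus. -/

open Complex Filter Topology Set MeasureTheory

namespace Pool.Agent.R304.UN

open ZU TH803TW

/-! ### independence of the logarithms of the primes -/

lemma fact_prod {ι : Type*} [Fintype ι] (p : ι → ℕ) (hp : ∀ i, (p i).Prime)
    (hinj : Function.Injective p) (a : ι → ℕ) (j : ι) :
    (∏ i, p i ^ a i).factorization (p j) = a j := by
  rw [Nat.factorization_prod (fun i _ => pow_ne_zero _ (hp i).ne_zero)]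
  rw [Finsupp.finsetSum_apply]
  rw [Finset.sum_eq_single j]
  · rw [(hp j).factorization_pow]; simp
  · intro i _ hij
    rw [(hp i).factorization_pow]
    exact Finsupp.single_eq_of_ne (fun h => hij (hinj h.symm))
  · simp

lemma log_indep {ι : Type*} [Fintype ι] (p : ι → ℕ) (hp : ∀ i, (p i).Prime)
    (hinj : Function.Injective p) (c : ι → ℤ) (h : ∑ i, (c i : ℝ) * Real.log (p i) = 0) :
    ∀ i, c i = 0 := by
  set a : ι → ℕ := fun i => (c i).toNat with ha
  set b : ι → ℕ := fun i => (-c i).toNat with hb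
  have hc : ∀ i, (c i : ℝ) = (a i : ℝ) - (b i : ℝ) := by
    intro i
    have : c i = (a i : ℤ) - (b i : ℤ) := by
      simp only [ha, hb]
      omega
    exact_mod_cast congrArg (Int.cast : ℤ → ℝ) this
  have hlogprod : ∀ e : ι → ℕ, Real.log ((∏ i, p i ^ e i : ℕ) : ℝ) =
      ∑ i, (e i : ℝ) * Real.log (p i) := by
    intro e
    push_cast
    rw [Real.log_prod]
    · refine Finset.sum_congr rfl fun i _ => ?_
      rw [Real.log_pow]
    · intro i _
      have := (hp i).pos
      positivity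
  have h1 : Real.log ((∏ i, p i ^ a i : ℕ) : ℝ) = Real.log ((∏ i, p i ^ b i : ℕ) : ℝ) := by
    rw [hlogprod, hlogprod, ← sub_eq_zero, ← Finset.sum_sub_distrib, ← h]
    refine Finset.sum_congr rfl fun i _ => ?_
    rw [hc i]; ring
  have hpos : ∀ e : ι → ℕ, (0 : ℝ) < ((∏ i, p i ^ e i : ℕ) : ℝ) := by
    intro e
    have : 0 < ∏ i, p i ^ e i := Finset.prod_pos fun i _ => pow_pos (hp i).pos _
    exact_mod_cast this
  have h2 : ((∏ i, p i ^ a i : ℕ) : ℝ) = ((∏ i, p i ^ b i : ℕ) : ℝ) :=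
    Real.log_injOn_pos (hpos a) (hpos b) h1
  have h3 : (∏ i, p i ^ a i : ℕ) = (∏ i, p i ^ b i : ℕ) := by exact_mod_cast h2
  intro j
  have h4 := fact_prod p hp hinj a j
  have h5 := fact_prod p hp hinj b j
  rw [h3, h5] at h4
  have h6 : (c j : ℝ) = 0 := by
    rw [hc j, h4]; ring
  exact_mod_cast h6

/-- the `j`-th prime `≤ M` (in some order) -/
noncomputable def pj (M : ℕ) (j : Fin (pr M).card) : ℕ := ((pr M).equivFin.symm j : ℕ)

lemma pj_mem (M : ℕ) (j : Fin (pr M).card) : pj M j ∈ pr M := ((pr M).equivFin.symm j).2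

lemma pj_prime (M : ℕ) (j : Fin (pr M).card) : (pj M j).Prime :=
  (Finset.mem_filter.mp (pj_mem M j)).2

lemma pj_inj (M : ℕ) : Function.Injective (pj M) := fun i j h =>
  (pr M).equivFin.symm.injective (Subtype.ext h)

/-- the frequencies -/
noncomputable def al (M : ℕ) (j : Fin (pr M).card) : ℝ := Real.log (pj M j) / (2 * Real.pi)

lemma al_indep (M : ℕ) : ∀ n : Fin (pr M).card → ℤ, ∑ j, (n j : ℝ) * al M j = 0 → n = 0 := by
  intro n h
  funext i
  refine log_indep (pj M) (pj_prime M) (pj_inj M) n ?_ i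
  have h1 : ∑ j, (n j : ℝ) * al M j = (∑ j, (n j : ℝ) * Real.log (pj M j)) / (2 * Real.pi) := by
    rw [Finset.sum_div]
    refine Finset.sum_congr rfl fun j _ => ?_
    unfold al
    ring
  rw [h1, div_eq_zero_iff] at h
  exact h.resolve_right (by positivity)

open Classical in
/-- the phases belonging to a point of the torus -/
noncomputable def om (M : ℕ) (x : UnitAddTorus (Fin (pr M).card)) (p : ℕ) : ℂ :=
  if h : p ∈ pr M then fourier (-1) (x ((pr M).equivFin ⟨p, h⟩)) else 1

lemma om_norm (M : ℕ) (x : UnitAddTorus (Fin (pr M).card)) (p : ℕ) : ‖om M x p‖ = 1 := by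
  unfold om
  split_ifs
  · rw [fourier_apply]; exact Circle.norm_coe _
  · simp

lemma om_cont (M : ℕ) (p : ℕ) : Continuous fun x => om M x p := by
  unfold om
  split_ifs
  · exact (map_continuous (fourier (-1))).comp (continuous_apply _)
  · exact continuous_const

lemma om_torusPt (M : ℕ) (t : ℝ) {p : ℕ} (hp : p ∈ pr M) :
    om M (torusPt (al M) t) p = (p : ℂ) ^ (-(t * I)) := by
  have hp2 : p.Prime := (Finset.mem_filter.mp hp).2
  have hp0 : (p : ℂ) ≠ 0 := by exact_mod_cast hp2.ne_zero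
  unfold om
  rw [dif_pos hp]
  unfold torusPt
  rw [fourier_coe_apply]
  unfold al pj
  rw [Equiv.symm_apply_apply]
  rw [Complex.cpow_def_of_ne_zero hp0, ← Complex.natCast_log]
  congr 1
  have hpi : (Real.pi : ℂ) ≠ 0 := by exact_mod_cast Real.pi_ne_zero
  push_cast
  field_simp

/-- the reciprocal of the finite Euler product with the phases `x` -/
noncomputable def EE (M : ℕ) (x : UnitAddTorus (Fin (pr M).card)) (z : ℂ) : ℂ := (EM M (om M x) z)⁻¹

lemma EE_near (a b B : ℝ) (h1 : 0 < a) (M : ℕ) (x : UnitAddTorus (Fin (pr M).card)) {ε : ℝ}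
    (hε : 0 < ε) : ∀ᶠ y in 𝓝 x, ∀ z ∈ rect a b B, ‖EE M y z - EE M x z‖ < ε := by
  obtain ⟨δ, hδ, h⟩ := euler_cont a b B h1 M (om M x) (om_norm M x) ε hε
  have hev : ∀ᶠ y in 𝓝 x, ∀ p ∈ pr M, ‖om M y p - om M x p‖ < δ := by
    rw [Filter.eventually_all_finset]
    intro p _
    have hc : Continuous fun y => ‖om M y p - om M x p‖ := ((om_cont M p).sub continuous_const).norm
    have := hc.tendsto x
    simp only [sub_self, norm_zero] at this
    exact this.eventually (gt_mem_nhds hδ)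
  filter_upwards [hev] with y hy z hz
  exact h (om M y) (fun p hp => ⟨om_norm M y p, hy p hp⟩) z hz

/-- the phases for which the Euler product is close to `f` on `K` -/
def VV (M : ℕ) (K : Set ℂ) (f : ℂ → ℂ) (θ : ℝ) : Set (UnitAddTorus (Fin (pr M).card)) :=
  {x | ∃ δ < θ, ∀ z ∈ K, ‖EE M x z - f z‖ ≤ δ}

lemma VV_open {a b B : ℝ} (h1 : 0 < a) (M : ℕ) {K : Set ℂ} (hK : K ⊆ rect a b B) (f : ℂ → ℂ)
    (θ : ℝ) : IsOpen (VV M K f θ) := by
  rw [isOpen_iff_mem_nhds]
  rintro x ⟨δ, hδ, hx⟩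
  filter_upwards [EE_near a b B h1 M x (ε := (θ - δ) / 2) (by linarith)] with y hy
  refine ⟨δ + (θ - δ) / 2, by linarith, fun z hz => ?_⟩
  have e : EE M y z - f z = (EE M x z - f z) + (EE M y z - EE M x z) := by ring
  rw [e]
  exact (norm_add_le _ _).trans (add_le_add (hx z hz) (hy z (hK hz)).le)

lemma VV_closure {a b B : ℝ} (h1 : 0 < a) (M : ℕ) {K : Set ℂ} (hK : K ⊆ rect a b B) (f : ℂ → ℂ)
    {θ θ' : ℝ} (hθ : θ < θ') : closure (VV M K f θ) ⊆ VV M K f θ' := by
  intro x hx
  have hn := EE_near a b B h1 M x (ε := (θ' - θ) / 2) (by linarith)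
  obtain ⟨y, hy1, δ, hδ, hy2⟩ := mem_closure_iff_nhds.mp hx _ hn
  refine ⟨δ + (θ' - θ) / 2, by linarith, fun z hz => ?_⟩
  have e : EE M x z - f z = (EE M y z - f z) - (EE M y z - EE M x z) := by ring
  rw [e]
  exact (norm_sub_le _ _).trans (add_le_add (hy2 z hz) (hy1 z (hK hz)).le)

/-- an upper bound for the mean value of an almost periodic function -/
lemma mean_le {φ : ℝ → ℝ} {m : ℝ} (hφ : APm φ m) (hc : Continuous φ) {η : ℝ} (hη : 0 < η) :
    ∃ X0 : ℝ, 0 < X0 ∧ ∀ X ≥ X0, ∫ t in (0 : ℝ)..X, φ t ≤ (m + η) * X := by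
  obtain ⟨S, c, h0, hS, hm⟩ := hφ (η / 3) (by positivity)
  have h1 := (tp_mean c h0).eventually (gt_mem_nhds (show (c 0).re < (c 0).re + η / 3 by linarith))
  obtain ⟨X1, hX1⟩ := Filter.eventually_atTop.mp h1
  refine ⟨max 1 X1, lt_max_of_lt_left one_pos, fun X hX => ?_⟩
  have hX0 : 0 < X := lt_of_lt_of_le one_pos ((le_max_left _ _).trans hX)
  have h2 := hX1 X ((le_max_right _ _).trans hX)
  rw [div_lt_iff₀ hX0] at h2
  have h3 : ∫ t in (0 : ℝ)..X, φ t ≤ ∫ t in (0 : ℝ)..X, (tp S c t + η / 3) := by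
    refine intervalIntegral.integral_mono_on hX0.le (hc.intervalIntegrable _ _)
      (((tp_cont S c).add continuous_const).intervalIntegrable _ _) fun t _ => ?_
    have := (abs_le.mp (hS t)).2
    linarith
  rw [intervalIntegral.integral_add ((tp_cont S c).intervalIntegrable _ _)
    (intervalIntegrable_const), intervalIntegral.integral_const, smul_eq_mul, sub_zero] at h3
  have h4 := (abs_le.mp hm).2
  nlinarith

/-- the frequency of the times with phases in `VV θ` is at most the measure of `VV θ'` -/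
theorem time_le {a b B : ℝ} (h1 : 0 < a) (M : ℕ) {K : Set ℂ} (hK : K ⊆ rect a b B) (f : ℂ → ℂ)
    {θ θ' : ℝ} (hθ : θ < θ') {η : ℝ} (hη : 0 < η) : ∃ X0 : ℝ, 0 < X0 ∧ ∀ X ≥ X0,
      volume ({t : ℝ | torusPt (al M) t ∈ VV M K f θ} ∩ Icc 0 X) ≤
        ENNReal.ofReal (((haarT _ (VV M K f θ')).toReal + η) * X) := by
  have hcl := VV_closure h1 M hK f hθ
  have hop := VV_open h1 M hK f θ'
  obtain ⟨g, hg0, hg1, hg⟩ := exists_continuous_zero_one_of_isClosed (hop.isClosed_compl)
    (isClosed_closure (s := VV M K f θ)) (by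
      rw [Set.disjoint_left]
      intro x hx1 hx2
      exact hx1 (hcl hx2))
  have hap := APm_torus (al_indep M) g
  have htc : Continuous fun t : ℝ => torusPt (al M) t := by
    unfold torusPt
    refine continuous_pi fun j => ?_
    exact (AddCircle.continuous_mk' _).comp (continuous_const.mul continuous_id)
  have hgc : Continuous fun t : ℝ => g (torusPt (al M) t) := g.continuous.comp htc
  obtain ⟨X0, hX0, h⟩ := mean_le hap hgc hη
  refine ⟨X0, hX0, fun X hX => ?_⟩
  have hXpos : 0 < X := hX0.trans_le hX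
  have h2 := h X hX
  have hgle : ∫ x, g x ∂(haarT (pr M).card) ≤ (haarT _ (VV M K f θ')).toReal := by
    have h3 : ∫ x, g x ∂(haarT (pr M).card) ≤
        ∫ x, (VV M K f θ').indicator (fun _ => (1 : ℝ)) x ∂(haarT (pr M).card) := by
      refine integral_mono (g.continuous.integrable_of_hasCompactSupport
        (HasCompactSupport.of_compactSpace _))
        ((integrable_const (1 : ℝ)).indicator hop.measurableSet) fun x => ?_
      by_cases hx : x ∈ VV M K f θ'
      · rw [Set.indicator_of_mem hx]; exact (hg x).2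
      · rw [Set.indicator_of_notMem hx]
        exact (hg0 (show x ∈ (VV M K f θ')ᶜ from hx)).le
    refine h3.trans (le_of_eq ?_)
    rw [integral_indicator_const _ hop.measurableSet, smul_eq_mul, mul_one]
    rfl
  have hsub : {t : ℝ | torusPt (al M) t ∈ VV M K f θ} ∩ Icc 0 X ⊆
      {t : ℝ | 1 ≤ g (torusPt (al M) t)} ∩ Icc 0 X := by
    rintro t ⟨ht, ht2⟩
    exact ⟨(hg1 (subset_closure ht)).ge, ht2⟩
  have hmeas : MeasurableSet {t : ℝ | 1 ≤ g (torusPt (al M) t)} :=
    (isClosed_le continuous_const hgc).measurableSet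
  have hIi : IntegrableOn (fun t : ℝ => g (torusPt (al M) t)) (Icc 0 X) :=
    hgc.continuousOn.integrableOn_compact isCompact_Icc
  have hmk := mul_meas_ge_le_integral_of_nonneg (μ := volume.restrict (Icc 0 X))
    (Eventually.of_forall fun t => (hg (torusPt (al M) t)).1) hIi 1
  refine (measure_mono hsub).trans ?_
  rw [← Measure.restrict_apply hmeas]
  have hfin : (volume.restrict (Icc 0 X)) {t : ℝ | 1 ≤ g (torusPt (al M) t)} ≠ ⊤ := by
    refine ne_top_of_le_ne_top ?_ (measure_mono (subset_univ _))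
    rw [Measure.restrict_apply_univ]
    exact measure_Icc_lt_top.ne
  rw [← ENNReal.ofReal_toReal hfin]
  apply ENNReal.ofReal_le_ofReal
  rw [one_mul, integral_Icc_eq_integral_Ioc, ← intervalIntegral.integral_of_le hXpos.le] at hmk
  refine hmk.trans (h2.trans ?_)
  gcongr

end Pool.Agent.R304.UN
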