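import Pool.Agent.R304.UN.BadZ
import Pool.Agent.R304.UN.Tor

/-! Zeros in sets of universality. -/

open Complex Filter Topology Set MeasureTheory

namespace Pool.Agent.R304.UN

open ZU H370 H370.A2 H370.AS H295SI TH803TW TH803UC

theorem exists_rectW (K : Set ℂ) (hK : IsCompact K) (hKs : K ⊆ {z | 1 / 2 < z.re ∧ z.re < 1}) :
    ∃ a b B : ℝ, 1 / 2 < a ∧ a ≤ b ∧ b < 1 ∧ 0 < B ∧ K ⊆ rect a b B := by
  rcases K.eq_empty_or_nonempty with h | h
  · exact ⟨3 / 4, 3 / 4, 1, by norm_num, le_rfl, by norm_num, one_pos, by rw [h]; exact Set.empty_subset _⟩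
  · obtain ⟨z1, hz1, hmin⟩ := hK.exists_isMinOn h Complex.continuous_re.continuousOn
    obtain ⟨z2, hz2, hmax⟩ := hK.exists_isMaxOn h Complex.continuous_re.continuousOn
    obtain ⟨C, hC⟩ := hK.exists_bound_of_continuousOn (f := fun z : ℂ => z.im)
      Complex.continuous_im.continuousOn
    refine ⟨z1.re, z2.re, max C 1, (hKs hz1).1, hmin hz2, (hKs hz2).2, lt_max_of_lt_right one_pos, ?_⟩
    intro z hz
    exact ⟨hmin hz, hmax hz, (hC z hz).trans (le_max_left _ _)⟩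

/-- `S_ε(K, f)`: the real `t` with `sup_{z ∈ K} |ζ(z + it) - f(z)| < ε`. -/
def SS (ε : ℝ) (K : Set ℂ) (f : ℂ → ℂ) : Set ℝ :=
  {t : ℝ | ∃ δ < ε, ∀ z ∈ K, ‖riemannZeta (z + t * I) - f z‖ ≤ δ}

lemma EE_eq (M : ℕ) (z : ℂ) (t : ℝ) :
    EE M (torusPt (al M) t) z = (EM M (fun _ => 1) (z + t * I))⁻¹ := by
  unfold EE
  rw [ZU.J_e1.de_EM_shift]
  congr 1
  unfold EM
  refine Finset.prod_congr rfl fun p hp => ?_
  rw [om_torusPt M t hp]

lemma good_rel {M : ℕ} {a b B θ : ℝ} (hθ : θ ≤ 1 / 2) {t : ℝ} (ht : t ∉ bad M a b B θ) {z : ℂ}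
    (hz : z ∈ rect a b B) :
    ‖riemannZeta (z + t * I) - EE M (torusPt (al M) t) z‖ ≤ θ * ‖EE M (torusPt (al M) t) z‖ ∧
    ‖EE M (torusPt (al M) t) z‖ ≤ 2 * ‖riemannZeta (z + t * I)‖ := by
  rw [EE_eq]
  set E := EM M (fun _ => 1) (z + t * I) with hE
  set ζ := riemannZeta (z + t * I) with hζ
  have h1 : ‖ζ * E - 1‖ ≤ θ := by
    by_contra hcon
    push Not at hcon
    exact ht ⟨z, hz, hcon⟩
  have hE0 : E ≠ 0 := by
    intro h
    rw [h, mul_zero, zero_sub, norm_neg, norm_one] at h1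
    linarith
  have e1 : ζ - E⁻¹ = (ζ * E - 1) * E⁻¹ := by field_simp
  have h2 : ‖ζ - E⁻¹‖ ≤ θ * ‖E⁻¹‖ := by
    rw [e1, norm_mul]
    exact mul_le_mul_of_nonneg_right h1 (norm_nonneg _)
  refine ⟨h2, ?_⟩
  have h3 : ‖E⁻¹‖ ≤ ‖ζ‖ + ‖ζ - E⁻¹‖ := by
    have : E⁻¹ = ζ - (ζ - E⁻¹) := by ring
    calc ‖E⁻¹‖ = ‖ζ - (ζ - E⁻¹)‖ := by rw [← this]
      _ ≤ _ := norm_sub_le _ _
  have h4 : θ * ‖E⁻¹‖ ≤ 1 / 2 * ‖E⁻¹‖ := mul_le_mul_of_nonneg_right hθ (norm_nonneg _)
  linarith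

/-- simple critical zeros with an exceptional set removed -/
lemma X1_split (A B : ℝ) (hA : 1 ≤ A) (p : ℝ → ℝ) (E : Set ℝ) [DecidablePred (· ∈ E)] :
    (X1 riemannZeta A B p : ℝ) ≤ X1 riemannZeta A B (fun t => if t ∈ E then 0 else p t) +
      NU riemannZeta A B (fun t => t ∈ E) := by
  classical
  unfold X1 NU
  have hsub : (Zf riemannZeta A B).filter (fun s => s.re = 1 / 2 ∧ mult riemannZeta s = 1 ∧
      0 < p s.im) ⊆ (Zf riemannZeta A B).filter (fun s => s.re = 1 / 2 ∧ mult riemannZeta s = 1 ∧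
        0 < (if s.im ∈ E then 0 else p s.im)) ∪
        (Zf riemannZeta A B).filter (fun s => s.im ∈ E ∧ mult riemannZeta s = 1) := by
    intro s hs
    rw [Finset.mem_filter] at hs
    rw [Finset.mem_union, Finset.mem_filter, Finset.mem_filter]
    by_cases h : s.im ∈ E
    · exact Or.inr ⟨hs.1, h, hs.2.2.1⟩
    · refine Or.inl ⟨hs.1, hs.2.1, hs.2.2.1, ?_⟩
      rw [if_neg h]; exact hs.2.2.2
  have h1 := (Finset.card_le_card hsub).trans (Finset.card_union_le _ _)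
  have h2 : (((Zf riemannZeta A B).filter (fun s => s.im ∈ E ∧ mult riemannZeta s = 1)).card : ℝ) ≤
      ∑ s ∈ (Zf riemannZeta A B).filter (fun s => s.im ∈ E), (mult riemannZeta s : ℝ) := by
    rw [Finset.card_eq_sum_ones]
    push_cast
    calc ∑ s ∈ (Zf riemannZeta A B).filter (fun s => s.im ∈ E ∧ mult riemannZeta s = 1), (1 : ℝ)
        = ∑ s ∈ (Zf riemannZeta A B).filter (fun s => s.im ∈ E ∧ mult riemannZeta s = 1),
          (mult riemannZeta s : ℝ) := by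
          refine Finset.sum_congr rfl fun s hs => ?_
          rw [Finset.mem_filter] at hs
          rw [hs.2.2]; simp
      _ ≤ _ := by
          refine Finset.sum_le_sum_of_subset_of_nonneg ?_ fun s _ _ => Nat.cast_nonneg _
          intro s hs
          rw [Finset.mem_filter] at hs ⊢
          exact ⟨hs.1, hs.2.1⟩
  have h3 : (((Zf riemannZeta A B).filter (fun s => s.re = 1 / 2 ∧ mult riemannZeta s = 1 ∧
      0 < p s.im)).card : ℝ) ≤ (((Zf riemannZeta A B).filter (fun s => s.re = 1 / 2 ∧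
        mult riemannZeta s = 1 ∧ 0 < (if s.im ∈ E then 0 else p s.im))).card : ℝ) +
        (((Zf riemannZeta A B).filter (fun s => s.im ∈ E ∧ mult riemannZeta s = 1)).card : ℝ) := by
    exact_mod_cast h1
  refine h3.trans (add_le_add ?_ ?_)
  · apply le_of_eq
    congr!
  · refine h2.trans (le_of_eq ?_)
    exact Finset.sum_congr (by congr!) fun _ _ => rfl

lemma mult_pos' {A B : ℝ} (hA : 1 ≤ A) {s : ℂ} (hs : s ∈ Zf riemannZeta A B) :
    1 ≤ mult riemannZeta s := by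
  rw [mem_Zf good_zeta hA] at hs
  exact H370.Loc.mult_pos' good_zeta (by linarith [hs.2.2.1]) hs.2.2.2.2

/-- distinct zeros with an exceptional set removed -/
lemma X2_split (A B : ℝ) (hA : 1 ≤ A) (p : ℝ → ℝ) (E : Set ℝ) [DecidablePred (· ∈ E)] :
    (X2 riemannZeta A B p : ℝ) ≤ X2 riemannZeta A B (fun t => if t ∈ E then 0 else p t) +
      NU riemannZeta A B (fun t => t ∈ E) := by
  classical
  unfold X2 NU
  have hsub : (Zf riemannZeta A B).filter (fun s => s.re ≤ 1 / 2 ∧ 0 < p s.im) ⊆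
      (Zf riemannZeta A B).filter (fun s => s.re ≤ 1 / 2 ∧
        0 < (if s.im ∈ E then 0 else p s.im)) ∪
        (Zf riemannZeta A B).filter (fun s => s.im ∈ E) := by
    intro s hs
    rw [Finset.mem_filter] at hs
    rw [Finset.mem_union, Finset.mem_filter, Finset.mem_filter]
    by_cases h : s.im ∈ E
    · exact Or.inr ⟨hs.1, h⟩
    · refine Or.inl ⟨hs.1, hs.2.1, ?_⟩
      rw [if_neg h]; exact hs.2.2
  have h1 := (Finset.card_le_card hsub).trans (Finset.card_union_le _ _)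
  have h2 : (((Zf riemannZeta A B).filter (fun s => s.im ∈ E)).card : ℝ) ≤
      ∑ s ∈ (Zf riemannZeta A B).filter (fun s => s.im ∈ E), (mult riemannZeta s : ℝ) := by
    rw [Finset.card_eq_sum_ones]
    push_cast
    refine Finset.sum_le_sum fun s hs => ?_
    rw [Finset.mem_filter] at hs
    exact_mod_cast mult_pos' hA hs.1
  have h3 : (((Zf riemannZeta A B).filter (fun s => s.re ≤ 1 / 2 ∧ 0 < p s.im)).card : ℝ) ≤
      (((Zf riemannZeta A B).filter (fun s => s.re ≤ 1 / 2 ∧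
        0 < (if s.im ∈ E then 0 else p s.im))).card : ℝ) +
        (((Zf riemannZeta A B).filter (fun s => s.im ∈ E)).card : ℝ) := by
    exact_mod_cast h1
  refine h3.trans (add_le_add ?_ ?_)
  · apply le_of_eq
    congr!
  · refine h2.trans (le_of_eq ?_)
    exact Finset.sum_congr (by congr!) fun _ _ => rfl

/-- the two conditions: the shift is close to `f`, and the Euler product is close to `f` -/
lemma close_iff {M : ℕ} {a b B θ ε' ε R Cf : ℝ} (hlt : ε' < ε) {K : Set ℂ} (hK : K ⊆ rect a b B)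
    {f : ℂ → ℂ} (hf : ∀ z ∈ K, ‖f z‖ ≤ Cf) (hR : R = Cf + |ε| + |ε'| + 1) (hθ : θ ≤ 1 / 2)
    (hθ0 : 0 ≤ θ) (hθR : θ * (2 * R) ≤ (ε - ε') / 6) {t : ℝ} (ht : t ∉ bad M a b B θ) :
    (t ∈ SS ε' K f → torusPt (al M) t ∈ VV M K f (ε' + (ε - ε') / 3)) ∧
    (torusPt (al M) t ∈ VV M K f (ε' + 2 * (ε - ε') / 3) → t ∈ SS ε K f) := by
  have a1 := neg_abs_le ε
  have a2 := neg_abs_le ε'
  have a3 := le_abs_self ε
  have a4 := le_abs_self ε'
  constructor
  · rintro ⟨δ, hδ, h⟩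
    refine ⟨δ + (ε - ε') / 6, by linarith, fun z hz => ?_⟩
    obtain ⟨g1, g2⟩ := good_rel hθ ht (hK hz)
    have h1 := h z hz
    have h2 : ‖riemannZeta (z + t * I)‖ ≤ R := by
      have e : riemannZeta (z + t * I) = f z + (riemannZeta (z + t * I) - f z) := by ring
      rw [e]
      have := norm_add_le (f z) (riemannZeta (z + t * I) - f z)
      have := hf z hz
      linarith
    have h3 : θ * ‖EE M (torusPt (al M) t) z‖ ≤ θ * (2 * R) := by
      apply mul_le_mul_of_nonneg_left _ hθ0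
      linarith
    have e : EE M (torusPt (al M) t) z - f z = (riemannZeta (z + t * I) - f z) -
        (riemannZeta (z + t * I) - EE M (torusPt (al M) t) z) := by ring
    rw [e]
    have := norm_sub_le (riemannZeta (z + t * I) - f z)
        (riemannZeta (z + t * I) - EE M (torusPt (al M) t) z)
    linarith
  · rintro ⟨δ, hδ, h⟩
    refine ⟨δ + (ε - ε') / 6, by linarith, fun z hz => ?_⟩
    obtain ⟨g1, g2⟩ := good_rel hθ ht (hK hz)
    have h1 := h z hz
    have h2 : ‖EE M (torusPt (al M) t) z‖ ≤ 2 * R := by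
      have e : EE M (torusPt (al M) t) z = f z + (EE M (torusPt (al M) t) z - f z) := by ring
      rw [e]
      have b1 := norm_add_le (f z) (EE M (torusPt (al M) t) z - f z)
      have b2 := hf z hz
      have b3 := norm_nonneg (f z)
      have b4 := abs_nonneg ε
      have b5 := abs_nonneg ε'
      have : R ≤ 2 * R := by linarith
      linarith
    have h3 : θ * ‖EE M (torusPt (al M) t) z‖ ≤ θ * (2 * R) :=
      mul_le_mul_of_nonneg_left h2 hθ0
    have e : riemannZeta (z + t * I) - f z = (riemannZeta (z + t * I) -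
        EE M (torusPt (al M) t) z) + (EE M (torusPt (al M) t) z - f z) := by ring
    rw [e]
    have := norm_add_le (riemannZeta (z + t * I) - EE M (torusPt (al M) t) z)
        (EE M (torusPt (al M) t) z - f z)
    linarith

lemma cc_le_two : cc 1 ≤ 1.3275 := cc_lt

lemma bounded_of_mem {K : Set ℂ} (hK : IsCompact K) (hKs : K ⊆ {z | 1 / 2 < z.re ∧ z.re < 1})
    {f : ℂ → ℂ} {ε : ℝ} {t : ℝ} (ht : t ∈ SS ε K f) : ∃ Cf : ℝ, 0 ≤ Cf ∧ ∀ z ∈ K, ‖f z‖ ≤ Cf := by
  obtain ⟨δ, hδ, h⟩ := ht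
  have hc : ContinuousOn (fun z : ℂ => riemannZeta (z + t * I)) K := by
    intro z hz
    have hne : z + t * I ≠ 1 := by
      intro hh
      have h1 := congrArg Complex.re hh
      simp at h1
      linarith [(hKs hz).2]
    exact (ContinuousAt.comp (g := riemannZeta) (f := fun z : ℂ => z + t * I)
      (differentiableAt_riemannZeta hne).continuousAt (by fun_prop)).continuousWithinAt
  obtain ⟨C, hC⟩ := hK.exists_bound_of_continuousOn hc
  refine ⟨max 0 (C + δ), le_max_left _ _, fun z hz => (le_max_right _ _).trans' ?_⟩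
  have h1 := hC z hz
  have h2 := h z hz
  have e : f z = riemannZeta (z + t * I) - (riemannZeta (z + t * I) - f z) := by ring
  rw [e]
  have := norm_sub_le (riemannZeta (z + t * I)) (riemannZeta (z + t * I) - f z)
  linarith

/-- **the core inequality** -/
theorem core {K : Set ℂ} (hK : IsCompact K) (hKs : K ⊆ {z | 1 / 2 < z.re ∧ z.re < 1})
    (f : ℂ → ℂ) {ε' ε : ℝ} (hlt : ε' < ε) {D : ℝ}
    (hD : ∃ᶠ X : ℝ in atTop, ENNReal.ofReal (D * X) ≤ volume (SS ε' K f ∩ Icc 0 X))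
    {η : ℝ} (hη : 0 < η) : ∃ T0 : ℝ, 10 ≤ T0 ∧ ∀ T : ℝ, T0 ≤ T →
      ((2 - cc 1) * D - η) * (NN riemannZeta T (2 * T) : ℝ) ≤
        ({t : ℝ | (T < t ∧ t ≤ 2 * T ∧ riemannZeta (1 / 2 + I * t) = 0 ∧
          deriv riemannZeta (1 / 2 + I * t) ≠ 0) ∧ t ∈ SS ε K f}.ncard : ℝ) ∧
      ((3 - cc 1) / 2 * D - η) * (NN riemannZeta T (2 * T) : ℝ) ≤
        ({s : ℂ | s ∈ zset riemannZeta T (2 * T) ∧ 1 / 2 ≤ s.re ∧
          s.im ∈ SS ε K f}.ncard : ℝ) := by
  classical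
  have hcc1 := cc_gt
  have hcc2 := cc_lt
  rcases le_or_gt D 0 with hD0 | hD0
  · refine ⟨10, le_rfl, fun T hT => ?_⟩
    have hN : (0 : ℝ) ≤ NN riemannZeta T (2 * T) := Nat.cast_nonneg _
    constructor
    · refine le_trans (mul_nonpos_of_nonpos_of_nonneg ?_ hN) (Nat.cast_nonneg _)
      have : (2 - cc 1) * D ≤ 0 := mul_nonpos_of_nonneg_of_nonpos (by norm_num at hcc2; linarith) hD0
      linarith
    · refine le_trans (mul_nonpos_of_nonpos_of_nonneg ?_ hN) (Nat.cast_nonneg _)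
      have : (3 - cc 1) / 2 * D ≤ 0 :=
        mul_nonpos_of_nonneg_of_nonpos (by norm_num at hcc2; linarith) hD0
      linarith
  -- `f` is bounded on `K`
  obtain ⟨Cf, hCf0, hCf⟩ : ∃ Cf : ℝ, 0 ≤ Cf ∧ ∀ z ∈ K, ‖f z‖ ≤ Cf := by
    obtain ⟨X, hX1, hX2⟩ := (hD.and_eventually (eventually_gt_atTop 0)).exists
    have h1 : 0 < volume (SS ε' K f ∩ Icc 0 X) :=
      lt_of_lt_of_le (ENNReal.ofReal_pos.2 (mul_pos hD0 hX2)) hX1
    have h2 : (SS ε' K f ∩ Icc 0 X).Nonempty := by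
      by_contra hcon
      rw [Set.not_nonempty_iff_eq_empty] at hcon
      rw [hcon, measure_empty] at h1
      exact lt_irrefl _ h1
    obtain ⟨t, ht, -⟩ := h2
    exact bounded_of_mem hK hKs ht
  obtain ⟨a, b, B, h1, h2, h3, h4, hsub⟩ := exists_rectW K hK hKs
  obtain ⟨R, hR⟩ : ∃ R, R = Cf + |ε| + |ε'| + 1 := ⟨_, rfl⟩
  have hR0 : 0 < R := by
    have := abs_nonneg ε
    have := abs_nonneg ε'
    linarith
  obtain ⟨θ, hθ⟩ : ∃ θ, θ = min (1 / 2) ((ε - ε') / (12 * R)) := ⟨_, rfl⟩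
  have hεε : 0 < ε - ε' := by linarith
  have hθ0 : 0 < θ := by rw [hθ]; positivity
  have hθ1 : θ ≤ 1 / 2 := by rw [hθ]; exact min_le_left _ _
  have hθR : θ * (2 * R) ≤ (ε - ε') / 6 := by
    have : θ ≤ (ε - ε') / (12 * R) := by rw [hθ]; exact min_le_right _ _
    calc θ * (2 * R) ≤ (ε - ε') / (12 * R) * (2 * R) := by gcongr
      _ = (ε - ε') / 6 := by field_simp; ring
  obtain ⟨η1, hη1⟩ : ∃ η1, η1 = η / 5 := ⟨_, rfl⟩
  have hη10 : 0 < η1 := by rw [hη1]; positivity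
  obtain ⟨M1, hM1⟩ := bad_measure a b B θ η1 h1 h2 h3 h4 hθ0 hη10
  obtain ⟨M2, hM2⟩ := bad_zeros a b B θ η1 h1 h2 h3 h4 hθ0 hη10
  obtain ⟨M, hM⟩ : ∃ M, M = max M1 M2 := ⟨_, rfl⟩
  obtain ⟨X1', hX1', hmeas⟩ := hM1 M (by rw [hM]; exact le_max_left _ _)
  obtain ⟨T1, hT1, hzer⟩ := hM2 M (by rw [hM]; exact le_max_right _ _)
  have hθθ : ε' + (ε - ε') / 3 < ε' + 2 * (ε - ε') / 3 := by linarith
  obtain ⟨X2', hX2', htime⟩ := time_le (by linarith) M hsub f hθθ hη10
  set μ : ℝ := (haarT _ (VV M K f (ε' + 2 * (ε - ε') / 3))).toReal with hμ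
  -- comparison of the densities
  have hDμ : D ≤ μ + 3 * η1 := by
    obtain ⟨X, hX1, hX2⟩ := (hD.and_eventually (eventually_ge_atTop (max X1' X2'))).exists
    have hXa : X1' ≤ X := (le_max_left _ _).trans hX2
    have hXb : X2' ≤ X := (le_max_right _ _).trans hX2
    have hX0 : 0 < X := hX1'.trans_le hXa
    have hcov : SS ε' K f ∩ Icc 0 X ⊆
        ({t : ℝ | torusPt (al M) t ∈ VV M K f (ε' + (ε - ε') / 3)} ∩ Icc 0 X) ∪
          (bad M a b B θ ∩ Icc 0 X) := by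
      rintro t ⟨ht1, ht2⟩
      by_cases htb : t ∈ bad M a b B θ
      · exact Or.inr ⟨htb, ht2⟩
      · exact Or.inl ⟨(close_iff hlt hsub hCf hR hθ1 hθ0.le hθR htb).1 ht1, ht2⟩
    have h5 := hX1.trans ((measure_mono hcov).trans (measure_union_le _ _))
    have h6 := h5.trans (add_le_add (htime X hXb) (hmeas X hXa))
    rw [← ENNReal.ofReal_add (by positivity) (by positivity)] at h6
    have h7 := (ENNReal.ofReal_le_ofReal_iff (by positivity)).mp h6
    have h8 : D * X ≤ (μ + 3 * η1) * X := by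
      refine h7.trans ?_
      nlinarith
    exact le_of_mul_le_mul_right h8 hX0
  obtain ⟨p, hp, T2, hT2, htor⟩ := torusU good_zeta dens_zeta (al_indep M)
    (VV_open (by linarith) M hsub f (ε' + 2 * (ε - ε') / 3)) (ε := η1) hη10
  refine ⟨max T1 T2, le_max_of_le_left hT1, fun T hT => ?_⟩
  have hTT1 : T1 ≤ T := (le_max_left _ _).trans hT
  have hTT2 : T2 ≤ T := (le_max_right _ _).trans hT
  have hT1' : 1 ≤ T := by linarith
  obtain ⟨c1, c2⟩ := htor T hTT2
  have c3 := hzer T hTT1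
  have hN : (0 : ℝ) ≤ NN riemannZeta T (2 * T) := Nat.cast_nonneg _
  have hP : ∀ t, 0 < (if t ∈ bad M a b B θ then 0 else p t) → t ∈ SS ε K f := by
    intro t ht
    by_cases htb : t ∈ bad M a b B θ
    · rw [if_pos htb] at ht
      exact absurd ht (lt_irrefl _)
    · rw [if_neg htb] at ht
      exact (close_iff hlt hsub hCf hR hθ1 hθ0.le hθR htb).2 (hp t ht)
  have d1 := X1_split T (2 * T) hT1' p (bad M a b B θ)
  have d2 := X2_split T (2 * T) hT1' p (bad M a b B θ)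
  have e1 := X1_le_ncard (B := 2 * T) hT1' hP
  have e2 := X2_le_ncard (B := 2 * T) hT1' hP
  norm_num at hcc2
  constructor
  · refine le_trans ?_ e1
    have k1 : ((2 - cc 1) * D - η) * (NN riemannZeta T (2 * T) : ℝ) ≤
        ((2 - cc 1) * μ - η1 - η1) * (NN riemannZeta T (2 * T) : ℝ) := by
      apply mul_le_mul_of_nonneg_right _ hN
      have k2 : (2 - cc 1) * D ≤ (2 - cc 1) * (μ + 3 * η1) :=
        mul_le_mul_of_nonneg_left hDμ (by linarith)
      nlinarith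
    have k3 : ((2 - cc 1) * μ - η1 - η1) * (NN riemannZeta T (2 * T) : ℝ) =
        ((2 - cc 1) * μ - η1) * (NN riemannZeta T (2 * T) : ℝ) -
          η1 * (NN riemannZeta T (2 * T) : ℝ) := by ring
    linarith
  · refine le_trans ?_ e2
    have k1 : ((3 - cc 1) / 2 * D - η) * (NN riemannZeta T (2 * T) : ℝ) ≤
        ((3 - cc 1) / 2 * μ - η1 - η1) * (NN riemannZeta T (2 * T) : ℝ) := by
      apply mul_le_mul_of_nonneg_right _ hN
      have k2 : (3 - cc 1) / 2 * D ≤ (3 - cc 1) / 2 * (μ + 3 * η1) :=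
        mul_le_mul_of_nonneg_left hDμ (by linarith)
      nlinarith
    have k3 : ((3 - cc 1) / 2 * μ - η1 - η1) * (NN riemannZeta T (2 * T) : ℝ) =
        ((3 - cc 1) / 2 * μ - η1) * (NN riemannZeta T (2 * T) : ℝ) -
          η1 * (NN riemannZeta T (2 * T) : ℝ) := by ring
    have k4 : ((3 - cc 1) * μ - η1) * (NN riemannZeta T (2 * T) : ℝ) =
        2 * (((3 - cc 1) / 2 * μ - η1) * (NN riemannZeta T (2 * T) : ℝ)) +
          η1 * (NN riemannZeta T (2 * T) : ℝ) := by ring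
    have k5 : 0 ≤ η1 * (NN riemannZeta T (2 * T) : ℝ) := by positivity
    linarith

end Pool.Agent.R304.UN
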